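import Pool.Agent.Q225.SD.Relabel
import Pool.Agent.Y649.DG.Main

set_option autoImplicit false

/-! # Few subfunctions -/

namespace Pool.Agent.Q225.SD

open Finset
open Pool.Agent.Y649.DG (Fml)
open Pool.Agent.Y638.RF (pull)
open Pool.Agent.Q225.SP (Ext join Oth glue pull_glue glue_none)

variable {ι : Type} {D : ι → Type} [DecidableEq ι] {w q : ℕ}

theorem Gates.deps_last (i : ι) {k : ℕ} (P : Gates ι D w q k)
    (F : Fml (ι ⊕ Fin k) (Ext D k) w q) :
    (P.snoc F).deps i (Fin.last k) = decide (0 < sees (P.dep i) F) := by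
  simp only [Gates.deps, Fin.snoc_last]
  rfl

theorem Gates.deps_castSucc (i : ι) {k : ℕ} (P : Gates ι D w q k)
    (F : Fml (ι ⊕ Fin k) (Ext D k) w q) (l : Fin k) :
    (P.snoc F).deps i l.castSucc = P.deps i l := by
  simp only [Gates.deps, Fin.snoc_castSucc]

/-- what does not depend on item `i` -/
theorem Gates.join_update (i : ι) {k : ℕ} (P : Gates ι D w q k)
    (hP : ∀ l, P.deps i l = false → ∀ (z : ∀ i, D i) (d : D i),
      P.eval (Function.update z i d) l = P.eval z l) (z : ∀ i, D i) (d : D i) (a : ι ⊕ Fin k)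
    (ha : P.dep i a = false) :
    join (Function.update z i d) (P.eval (Function.update z i d)) a = join z (P.eval z) a := by
  rcases a with i' | l
  · simp only [Gates.dep, Sum.elim_inl, decide_eq_false_iff_not] at ha
    simp only [join]
    rw [Function.update_of_ne ha]
  · simp only [Gates.dep, Sum.elim_inr] at ha
    simp only [join]
    exact hP l ha z d

theorem Gates.eval_update (i : ι) : ∀ {k : ℕ} (P : Gates ι D w q k) (l : Fin k),
    P.deps i l = false → ∀ (z : ∀ i, D i) (d : D i),
      P.eval (Function.update z i d) l = P.eval z l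
  | _, .nil, l => l.elim0
  | _, @Gates.snoc _ _ _ _ k P F, l => by
    refine Fin.lastCases ?_ (fun u => ?_) l
    · intro h z d
      rw [Gates.deps_last, decide_eq_false_iff_not, not_lt, Nat.le_zero] at h
      simp only [Gates.eval, Fin.snoc_last]
      unfold Fml.accepts
      rw [eval_congr F h (fun a ha => P.join_update i (Gates.eval_update i P) z d a ha)]
    · intro h z d
      rw [Gates.deps_castSucc] at h
      simp only [Gates.eval, Fin.snoc_castSucc]
      exact Gates.eval_update i P u h z d

open Classical in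
/-- The functions of a formula, if what it sees is a function of `v : Y` (from a given family), or
does not depend on `v`. -/
theorem fml_family {Y A : Type} [Fintype Y] {D : A → Type} (s M B : ℕ) (hq : 1 ≤ q)
    (hM : 4 * Fintype.card Y * (5 * s + 1) + 2 + s ≤ M)
    (hB : B = 2 * M ^ 5 * q ^ (w - 1)) (F : Fml A D w q) (hs : F.size ≤ s)
    (U : A → Bool) (f : Y → ∀ a, D a) :
    ∃ S : Finset (Y → Bool), S.card ≤ 2 * B ^ (3 * sees U F ^ 2) ∧
      ∀ X : Y → ∀ a, D a, (∀ u a, U a = true → X u a = f u a) →
        (∀ u u' a, U a = false → X u a = X u' a) → (fun u => F.accepts (X u)) ∈ S := by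
  have hB1 : 1 ≤ B := by
    rw [hB]
    have h1 : 1 ≤ M := by omega
    have h2 : 1 ≤ M ^ 5 := Nat.one_le_pow _ _ h1
    have h3 : 1 ≤ q ^ (w - 1) := Nat.one_le_pow _ _ hq
    nlinarith
  rcases isEmpty_or_nonempty Y with hY | ⟨⟨u0⟩⟩
  · refine ⟨univ, ?_, fun _ _ _ => mem_univ _⟩
    rw [card_univ, Fintype.card_fun, Fintype.card_eq_zero (α := Y), pow_zero]
    exact Nat.one_le_iff_ne_zero.2 (Nat.mul_ne_zero (by omega) (pow_ne_zero _ (by omega)))
  obtain ⟨V, hV⟩ : ∃ V : A → ℕ, V = fun a => if U a = true then 1 else 0 := ⟨_, rfl⟩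
  have hV0 : ∀ a, V a = 0 ↔ U a = false := by
    intro a
    simp only [hV]
    cases U a <;> simp
  obtain ⟨S, h1, h2⟩ := Pool.Agent.Y649.DG.sub (Option A) (Oth Y D) w q Y none
    (fun u : Y => (u : Oth Y D none)) s M B hq hM hB (relabel (glue V f) F)
    ((size_relabel _ F).trans_le hs)
  refine ⟨S, h1.trans (Nat.mul_le_mul_left _ (Nat.pow_le_pow_right hB1
    (Nat.mul_le_mul_left _ (Nat.pow_le_pow_left (reads_relabel (glue V f) none (fun a ha => by
      have h3 := glue_none V f a ha
      by_contra h4
      rw [Bool.not_eq_true] at h4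
      have := (hV0 a).2 h4
      omega) F) 2)))), ?_⟩
  intro X hX1 hX2
  have h3 := h2 (fun b => match b with
    | none => u0
    | some a => X u0 a)
  convert h3 using 1
  funext u
  rw [accepts_relabel]
  congr 1
  funext a
  rw [pull_glue]
  split_ifs with ha
  · rw [Function.update_of_ne (by simp)]
    exact hX2 _ _ _ ((hV0 a).1 ha)
  · rw [Function.update_self]
    refine hX1 _ _ ?_
    by_contra h4
    rw [Bool.not_eq_true] at h4
    exact ha ((hV0 a).2 h4)

open Classical in
/-- The functions of item `i` of all the gates which depend on item `i`. -/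
theorem Gates.families {Y : Type} [Fintype Y] (i : ι) (y : Y → D i) (z0 : ∀ i, D i) (s M B : ℕ)
    (hq : 1 ≤ q) (hM : 4 * Fintype.card Y * (5 * s + 1) + 2 + s ≤ M)
    (hB : B = 2 * M ^ 5 * q ^ (w - 1)) : ∀ {k : ℕ} (P : Gates ι D w q k), P.SizeLE s →
    ∃ 𝒮 : Finset (Fin k → Y → Bool), 𝒮.card ≤ (2 * B ^ 3) ^ P.squares i ∧
      ∀ z : (∀ i, D i), ∃ t ∈ 𝒮, ∀ l, P.deps i l = true → ∀ u,
        P.eval (Function.update z i (y u)) l = t l u
  | _, .nil, _ => ⟨{fun l => l.elim0}, by simp [Gates.squares], fun z =>
      ⟨_, mem_singleton_self _, fun l => l.elim0⟩⟩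
  | _, @Gates.snoc _ _ _ _ k P F, hs => by
    obtain ⟨hs1, hs2⟩ := hs
    obtain ⟨𝒮, h𝒮1, h𝒮2⟩ := Gates.families i y z0 s M B hq hM hB P hs1
    -- the gate, for given functions of the earlier gates
    choose S hS1 hS2 using fun t : Fin k → Y → Bool => fml_family s M B hq hM hB F hs2 (P.dep i)
      (fun u => join (Function.update z0 i (y u)) (fun l => t l u))
    by_cases hd : 0 < sees (P.dep i) F
    · refine ⟨𝒮.biUnion fun t => (S t).image fun g => Fin.snoc (α := fun _ => Y → Bool) t g,
        ?_, fun z => ?_⟩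
      · refine card_biUnion_le.trans ?_
        calc ∑ t ∈ 𝒮, ((S t).image fun g => Fin.snoc (α := fun _ => Y → Bool) t g).card
            ≤ ∑ t ∈ 𝒮, (2 * B ^ 3) ^ (sees (P.dep i) F ^ 2) := by
              refine sum_le_sum fun t _ => card_image_le.trans ((hS1 t).trans ?_)
              rw [mul_pow, ← pow_mul]
              apply Nat.mul_le_mul_right
              exact Nat.le_self_pow (by positivity) _
          _ = 𝒮.card * (2 * B ^ 3) ^ (sees (P.dep i) F ^ 2) := by rw [sum_const, smul_eq_mul]
          _ ≤ (2 * B ^ 3) ^ P.squares i * (2 * B ^ 3) ^ (sees (P.dep i) F ^ 2) :=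
              Nat.mul_le_mul_right _ h𝒮1
          _ = _ := by rw [← pow_add]; rfl
      · obtain ⟨t, ht, htz⟩ := h𝒮2 z
        refine ⟨Fin.snoc (α := fun _ => Y → Bool) t (fun u => F.accepts (join (Function.update z i
          (y u)) (P.eval (Function.update z i (y u))))), ?_, ?_⟩
        · rw [mem_biUnion]
          refine ⟨t, ht, mem_image.2 ⟨_, ?_, rfl⟩⟩
          refine hS2 t _ ?_ ?_
          · rintro u (i' | l) ha
            · simp only [Gates.dep, Sum.elim_inl, decide_eq_true_eq] at ha
              subst ha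
              simp only [join, Function.update_self]
              try rfl
            · simp only [Gates.dep, Sum.elim_inr] at ha
              exact htz l ha u
          · intro u u' a ha
            rw [P.join_update i (fun l hl => P.eval_update i l hl) z (y u) a ha,
              P.join_update i (fun l hl => P.eval_update i l hl) z (y u') a ha]
        · intro l
          refine Fin.lastCases ?_ (fun l' => ?_) l
          · intro _ u
            simp only [Gates.eval, Fin.snoc_last]
          · intro hl u
            rw [Gates.deps_castSucc] at hl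
            simp only [Gates.eval, Fin.snoc_castSucc]
            exact htz l' hl u
    · refine ⟨𝒮.image fun t => Fin.snoc (α := fun _ => Y → Bool) t (fun _ => false),
        card_image_le.trans (h𝒮1.trans (le_of_eq ?_)), fun z => ?_⟩
      · have h0 : sees (P.dep i) F = 0 := by omega
        simp [Gates.squares, h0]
      · obtain ⟨t, ht, htz⟩ := h𝒮2 z
        refine ⟨_, mem_image_of_mem _ ht, fun l => ?_⟩
        refine Fin.lastCases ?_ (fun l' => ?_) l
        · intro hl
          rw [Gates.deps_last, decide_eq_true_eq] at hl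
          exact absurd hl hd
        · intro hl u
          rw [Gates.deps_castSucc] at hl
          simp only [Gates.eval, Fin.snoc_castSucc]
          exact htz l' hl u

open Classical in
/-- Few subfunctions. -/
theorem Circuit.subfunctions {Y : Type} [Fintype Y] (i : ι) (y : Y → D i) (s M B : ℕ)
    (hq : 1 ≤ q) (hM : 4 * Fintype.card Y * (5 * s + 1) + 2 + s ≤ M)
    (hB : B = 2 * M ^ 5 * q ^ (w - 1)) (C : Circuit ι D w q) (hs : C.SizeLE s) :
    ∃ S : Finset (Y → Bool), S.card ≤ 2 * (2 * B ^ 3) ^ C.squares i ∧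
      ∀ z : (∀ i, D i), (fun u => C.eval (Function.update z i (y u))) ∈ S := by
  rcases isEmpty_or_nonempty (∀ i, D i) with hz | ⟨⟨z0⟩⟩
  · exact ⟨∅, by simp, fun z => (hz.false z).elim⟩
  obtain ⟨𝒮, h𝒮1, h𝒮2⟩ := C.gates.families i y z0 s M B hq hM hB hs.1
  choose S hS1 hS2 using fun t : Fin C.shared → Y → Bool => fml_family s M B hq hM hB C.output
    hs.2 (C.gates.dep i) (fun u => join (Function.update z0 i (y u)) (fun l => t l u))
  refine ⟨𝒮.biUnion S, ?_, fun z => ?_⟩
  · refine card_biUnion_le.trans ?_
    calc ∑ t ∈ 𝒮, (S t).card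
        ≤ ∑ t ∈ 𝒮, 2 * (2 * B ^ 3) ^ (sees (C.gates.dep i) C.output ^ 2) := by
          refine sum_le_sum fun t _ => (hS1 t).trans (Nat.mul_le_mul_left _ ?_)
          rw [mul_pow, ← pow_mul]
          exact Nat.le_mul_of_pos_left _ (by positivity)
      _ = 𝒮.card * (2 * (2 * B ^ 3) ^ (sees (C.gates.dep i) C.output ^ 2)) := by
          rw [sum_const, smul_eq_mul]
      _ ≤ (2 * B ^ 3) ^ C.gates.squares i *
            (2 * (2 * B ^ 3) ^ (sees (C.gates.dep i) C.output ^ 2)) :=
          Nat.mul_le_mul_right _ h𝒮1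
      _ = _ := by
          unfold Circuit.squares
          rw [pow_add]
          ring
  · obtain ⟨t, ht, htz⟩ := h𝒮2 z
    rw [mem_biUnion]
    refine ⟨t, ht, hS2 t _ ?_ ?_⟩
    · rintro u (i' | l) ha
      · simp only [Gates.dep, Sum.elim_inl, decide_eq_true_eq] at ha
        subst ha
        simp only [join, Function.update_self]
        try rfl
      · simp only [Gates.dep, Sum.elim_inr] at ha
        exact htz l ha u
    · intro u u' a ha
      rw [C.gates.join_update i (fun l hl => C.gates.eval_update i l hl) z (y u) a ha,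
        C.gates.join_update i (fun l hl => C.gates.eval_update i l hl) z (y u') a ha]

end Pool.Agent.Q225.SD
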