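import Pool.Agent.Q225.SP.Defs
import Pool.Agent.Y649.DG.Defs

set_option autoImplicit false

/-! # Circuits whose gates are formulas with determinants -/

namespace Pool.Agent.Q225.SD

open Finset
open Pool.Agent.Y649.DG (Fml)
open Pool.Agent.Q225.SP (Ext join)

/-- The number of the leaves of a formula which see something in the set `U`. -/
def sees {ι : Type} {D : ι → Type} {w q : ℕ} (U : ι → Bool) : Fml ι D w q → ℕ
  | .const _ => 0
  | .item i _ => if U i = true then 1 else 0
  | .word τ => if ∃ k, U (τ.item k) = true then 1 else 0
  | .pos F => sees U F
  | .sym _ _ F => ∑ j, sees U (F j)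
  | .det _ F => ∑ a, ∑ b, sees U (F a b)
  | .reg _ _ _ _ _ F => ∑ a, ∑ b, sees U (F a b)

/-- A sequence of `k` gates. Every gate is a formula with determinants, of the items and of the bits
of the earlier gates; the bit of the gate is one if the formula is positive. -/
inductive Gates (ι : Type) (D : ι → Type) (w q : ℕ) : ℕ → Type 1
  | nil : Gates ι D w q 0
  | snoc : {k : ℕ} → Gates ι D w q k → Fml (ι ⊕ Fin k) (Ext D k) w q → Gates ι D w q (k + 1)

variable {ι : Type} {D : ι → Type} {w q : ℕ}

namespace Gates

/-- The bits of the gates. -/
noncomputable def eval : {k : ℕ} → Gates ι D w q k → (∀ i, D i) → Fin k → Bool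
  | _, nil, _ => Fin.elim0
  | _, snoc P F, x => Fin.snoc (α := fun _ => Bool) (P.eval x) (F.accepts (join x (P.eval x)))

/-- Every gate has size at most `s`. -/
def SizeLE (s : ℕ) : {k : ℕ} → Gates ι D w q k → Prop
  | _, nil => True
  | _, snoc P F => P.SizeLE s ∧ F.size ≤ s

/-- The sum of the sizes of the gates. -/
def size : {k : ℕ} → Gates ι D w q k → ℕ
  | _, nil => 0
  | _, snoc P F => P.size + F.size

/-- Does the gate depend on item `i`? (It reads item `i`, or the bit of an earlier gate which depends
on item `i`.) -/
def deps [DecidableEq ι] (i : ι) : {k : ℕ} → Gates ι D w q k → Fin k → Bool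
  | _, nil => Fin.elim0
  | _, snoc P F => Fin.snoc (α := fun _ => Bool) (P.deps i)
      (decide (0 < sees (Sum.elim (fun i' => decide (i' = i)) (P.deps i)) F))

/-- The things that can be read which depend on item `i`: this item, and the bits of the gates which
depend on it. -/
def dep [DecidableEq ι] (i : ι) {k : ℕ} (P : Gates ι D w q k) : ι ⊕ Fin k → Bool :=
  Sum.elim (fun i' => decide (i' = i)) (P.deps i)

/-- The sum over all gates of the square of the number of the leaves which see something that depends
on item `i`. -/
def squares [DecidableEq ι] (i : ι) : {k : ℕ} → Gates ι D w q k → ℕ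
  | _, nil => 0
  | _, snoc P F => P.squares i + sees (P.dep i) F ^ 2

end Gates

/-- Circuits: a sequence of gates whose bits may be used any number of times, and an output gate. -/
structure Circuit (ι : Type) (D : ι → Type) (w q : ℕ) : Type 1 where
  /-- the number of the gates whose bits may be used -/
  shared : ℕ
  /-- these gates -/
  gates : Gates ι D w q shared
  /-- the output gate -/
  output : Fml (ι ⊕ Fin shared) (Ext D shared) w q

namespace Circuit

/-- The result of the computation. -/
noncomputable def eval (C : Circuit ι D w q) (x : ∀ i, D i) : Bool :=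
  C.output.accepts (join x (C.gates.eval x))

/-- Every gate, also the output gate, has size at most `s`. There may be any number of gates. -/
def SizeLE (s : ℕ) (C : Circuit ι D w q) : Prop := C.gates.SizeLE s ∧ C.output.size ≤ s

/-- The sum of the sizes of all gates. -/
def size (C : Circuit ι D w q) : ℕ := C.gates.size + C.output.size

/-- Every gate whose bit may be used depends on at most `d` of the items in `I`. -/
def IsLocal [DecidableEq ι] (I : Finset ι) (d : ℕ) (C : Circuit ι D w q) : Prop :=
  ∀ l, (I.filter (fun i => C.gates.deps i l = true)).card ≤ d

/-- The sum over all gates of the square of the number of the leaves which see something that depends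
on item `i`. -/
def squares [DecidableEq ι] (i : ι) (C : Circuit ι D w q) : ℕ :=
  C.gates.squares i + sees (C.gates.dep i) C.output ^ 2

/-- The load: for each item in `I`, the square root of the sum over all gates of the square of the
number of the leaves which see something that depends on this item. -/
noncomputable def load [DecidableEq ι] (I : Finset ι) (C : Circuit ι D w q) : ℝ :=
  ∑ i ∈ I, √(C.squares i : ℝ)

end Circuit

/-- The expected value. -/
def mean {Ω : Type} [Fintype Ω] (μ : Ω → ℝ) (a : Ω → ℝ) : ℝ := ∑ ω, μ ω * a ω

end Pool.Agent.Q225.SD
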