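import Pool.Agent.Q225.SD.Lower

set_option autoImplicit false

/-! # Small local gates; formulas and networks as circuits -/

namespace Pool.Agent.Q225.SD

open Finset
open Pool.Agent.Y649.DG (Fml)
open Pool.Agent.Y638.RF (Net pull)
open Pool.Agent.TH697.Form (IsProb)
open Pool.Agent.Q225.SP (Ext join)

variable {ι : Type} {D : ι → Type} [DecidableEq ι] {w q : ℕ}

theorem Gates.card_dep (I : Finset ι) (d : ℕ) (hd : 1 ≤ d) {k : ℕ} (P : Gates ι D w q k)
    (h : ∀ l, (I.filter (fun i => P.deps i l = true)).card ≤ d) (a : ι ⊕ Fin k) :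
    (I.filter (fun i => P.dep i a = true)).card ≤ d := by
  rcases a with i' | l
  · refine le_trans ?_ hd
    rw [card_le_one]
    intro a ha b hb
    simp only [Gates.dep, Sum.elim_inl, decide_eq_true_eq, mem_filter] at ha hb
    rw [← ha.2, ← hb.2]
  · exact h l

theorem sum_sq_le (I : Finset ι) (s d : ℕ) (hd : 1 ≤ d) (hw : 1 ≤ w) {k : ℕ}
    (P : Gates ι D w q k) (h : ∀ l, (I.filter (fun i => P.deps i l = true)).card ≤ d)
    (F : Fml (ι ⊕ Fin k) (Ext D k) w q) (hs : F.size ≤ s) :
    ∑ i ∈ I, sees (P.dep i) F ^ 2 ≤ s * (w * d * F.size) := by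
  calc ∑ i ∈ I, sees (P.dep i) F ^ 2 ≤ ∑ i ∈ I, s * sees (P.dep i) F := by
        refine sum_le_sum fun i _ => ?_
        rw [sq]
        exact Nat.mul_le_mul_right _ ((sees_le_size _ F).trans hs)
    _ = s * ∑ i ∈ I, sees (P.dep i) F := by rw [mul_sum]
    _ ≤ _ := Nat.mul_le_mul_left _ (sum_sees_le I _ d hw (P.card_dep I d hd h) F)

theorem Gates.sum_squares_le (I : Finset ι) (s d : ℕ) (hd : 1 ≤ d) (hw : 1 ≤ w) :
    ∀ {k : ℕ} (P : Gates ι D w q k), P.SizeLE s →
      (∀ l, (I.filter (fun i => P.deps i l = true)).card ≤ d) →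
      ∑ i ∈ I, P.squares i ≤ s * (w * d * P.size)
  | _, .nil, _, _ => by simp [Gates.squares]
  | _, @Gates.snoc _ _ _ _ k P F, hs, h => by
    obtain ⟨hs1, hs2⟩ := hs
    have h0 : ∀ l, (I.filter (fun i => P.deps i l = true)).card ≤ d := by
      intro l
      have := h l.castSucc
      simpa only [Gates.deps_castSucc] using this
    have h1 := Gates.sum_squares_le I s d hd hw P hs1 h0
    have h2 := sum_sq_le I s d hd hw P h0 F hs2
    simp only [Gates.squares, Gates.size, sum_add_distrib, mul_add]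
    exact Nat.add_le_add h1 h2

theorem Circuit.sum_squares_le (I : Finset ι) (s d : ℕ) (hd : 1 ≤ d) (hw : 1 ≤ w)
    (C : Circuit ι D w q) (hs : C.SizeLE s) (h : C.IsLocal I d) :
    ∑ i ∈ I, C.squares i ≤ s * (w * d * C.size) := by
  have h1 := C.gates.sum_squares_le I s d hd hw hs.1 h
  have h2 := sum_sq_le I s d hd hw C.gates h C.output hs.2
  simp only [Circuit.squares, Circuit.size, sum_add_distrib, mul_add]
  exact Nat.add_le_add h1 h2

omit [DecidableEq ι] in
theorem Gates.SizeLE.mono {s s' : ℕ} (h : s ≤ s') : ∀ {k : ℕ} {P : Gates ι D w q k},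
    P.SizeLE s → P.SizeLE s'
  | _, .nil, _ => trivial
  | _, .snoc _ _, hs => ⟨Gates.SizeLE.mono h hs.1, hs.2.trans h⟩

omit [DecidableEq ι] in
theorem Circuit.SizeLE.mono {s s' : ℕ} (h : s ≤ s') {C : Circuit ι D w q} (hs : C.SizeLE s) :
    C.SizeLE s' := ⟨Gates.SizeLE.mono h hs.1, hs.2.trans h⟩

/-- From the load to the size, for small local gates. -/
theorem local_bound {Ω : Type} [Fintype Ω] (μ : Ω → ℝ) (hμ : IsProb μ) (I : Finset ι) (s d : ℕ)
    (hd : 1 ≤ d) (hw : 1 ≤ w) (C : Ω → Circuit ι D w q) (hs : ∀ ω, (C ω).SizeLE s)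
    (h : ∀ ω, (C ω).IsLocal I d) {t b : ℝ} (hb : 0 ≤ b) (hI : 0 < I.card)
    (ht : I.card * t ≤ b * mean μ (fun ω => (C ω).load I) ^ 2) :
    t ≤ b * (s * w * d * mean μ (fun ω => ((C ω).size : ℝ))) := by
  have hI' : (0 : ℝ) < I.card := by exact_mod_cast hI
  have h1 := sq_mean_le μ hμ I C
  have h2 : mean μ (fun ω => ∑ i ∈ I, ((C ω).squares i : ℝ)) ≤
      s * w * d * mean μ (fun ω => ((C ω).size : ℝ)) := by
    unfold mean
    rw [mul_sum]
    refine sum_le_sum fun ω _ => ?_
    have h3 : (∑ i ∈ I, ((C ω).squares i : ℝ)) ≤ s * (w * d * ((C ω).size : ℝ)) := by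
      exact_mod_cast (C ω).sum_squares_le I s d hd hw (hs ω) (h ω)
    have h4 := mul_le_mul_of_nonneg_left h3 (hμ.nonneg ω)
    linarith
  have h5 : I.card * t ≤ I.card * (b * (s * w * d * mean μ (fun ω => ((C ω).size : ℝ)))) := by
    refine ht.trans ((mul_le_mul_of_nonneg_left (h1.trans (mul_le_mul_of_nonneg_left h2 hI'.le))
      hb).trans (le_of_eq ?_))
    ring
  exact le_of_mul_le_mul_left h5 hI'

/-! ### Formulas and networks -/

theorem sees_relabel {β : Type} {E : β → Type} (R : ∀ i, Σ b : β, (E b → D i)) (U : β → Bool)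
    (F : Fml ι D w q) : sees U (relabel R F) = sees (fun i => U (R i).1) F := by
  induction F with
  | const c => rfl
  | item i f => rfl
  | word τ => rfl
  | pos F ih => simpa only [relabel, sees] using ih
  | sym k h F ih => simp only [relabel, sees, ih]
  | det m F ih => simp only [relabel, sees, ih]
  | reg K inst m c c' F ih => simp only [relabel, sees, ih]

/-- A formula as a circuit. -/
def ofFml (F : Fml ι D w q) : Circuit ι D w q where
  shared := 0
  gates := .nil
  output := relabel (fun i => ⟨Sum.inl i, fun e => e⟩) F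

theorem ofFml_eval (F : Fml ι D w q) (x : ∀ i, D i) : (ofFml F).eval x = F.accepts x := by
  unfold Circuit.eval ofFml
  simp only
  rw [accepts_relabel]
  rfl

theorem ofFml_load (I : Finset ι) (F : Fml ι D w q) (hw : 1 ≤ w) :
    (ofFml F).load I ≤ w * F.size := by
  unfold Circuit.load
  have e : ∀ i, √((ofFml F).squares i : ℝ) = (sees (fun i' => decide (i' = i)) F : ℝ) := by
    intro i
    unfold Circuit.squares ofFml
    simp only [Gates.squares, zero_add]
    rw [sees_relabel]
    push_cast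
    rw [Real.sqrt_sq (Nat.cast_nonneg _)]
    rfl
  simp only [e]
  have h := sum_sees_le I (fun i i' => decide (i' = i)) 1 hw (fun a => by
    rw [card_le_one]
    intro x hx y hy
    simp only [decide_eq_true_eq, mem_filter] at hx hy
    rw [← hx.2, ← hy.2]) F
  rw [mul_one] at h
  exact_mod_cast h

/-- Networks guarded by real formulas are circuits. -/
theorem exists_of_net (I : Finset ι) (N : Net ι D w q) (hw : 1 ≤ w) :
    ∃ C : Circuit ι D w q, C.shared = 0 ∧ C.size ≤ N.size ∧ C.load I ≤ w * N.size ∧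
      ∀ x, C.eval x = N.eval x := by
  obtain ⟨F, h1, h2⟩ := Pool.Agent.Y649.DG.exists_of_net N
  refine ⟨ofFml F, rfl, ?_, (ofFml_load I F hw).trans ?_,
    fun x => (ofFml_eval F x).trans (h2 x)⟩
  · unfold Circuit.size ofFml
    simp only [Gates.size, size_relabel, zero_add]
    exact h1
  exact mul_le_mul_of_nonneg_left (by exact_mod_cast h1) (Nat.cast_nonneg _)

end Pool.Agent.Q225.SD
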