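import Pool.Agent.Q225.SD.Core
import Pool.Agent.Y649.DG.Incl

set_option autoImplicit false

/-! # The lower bound for random circuits -/

namespace Pool.Agent.Q225.SD

open Finset
open Pool.Agent.Y649.DG (Fml)
open Pool.Agent.Y638.RF (Asks gen_err')
open Pool.Agent.TH697.Form (IsProb)
open Pool.Agent.TH697.Row (ApproximatesOn)
open Pool.Agent.Q225.SP (Ext join)

variable {ι : Type} {D : ι → Type} [DecidableEq ι] {w q : ℕ}
  {T : Type} [Fintype T] {Ω : Type} [Fintype Ω]

open Classical in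
theorem circuit_lower (μ : Ω → ℝ) (hμ : IsProb μ) (C : Ω → Circuit ι D w q)
    (P : (∀ i, D i) → Prop) (f : (∀ i, D i) → Bool)
    (hF : ApproximatesOn μ (fun ω => (C ω).eval) P f) (s : ℕ) (hs : ∀ ω, (C ω).SizeLE s)
    (hq : 1 ≤ q) (hw : 1 ≤ w) (K M : ℕ) (hM : 4 * K * (5 * s + 1) + 2 + s ≤ M) (δ : ℝ)
    (I : Finset ι) (h : ∀ i ∈ I, Asks T K δ P f i) (θ : ℝ) (hθ : 0 < θ)
    (hsmall : 1 + 4 * (40 * θ) ^ 2 * (1 + 5 * Real.logb 2 M + (w - 1) * Real.logb 2 q) <
      (17 / 300 - δ) * Fintype.card T) :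
    (I.card : ℝ) * θ ≤ mean μ (fun ω => (C ω).load I) := by
  have h6 : (0 : ℝ) < Real.log 2 := Real.log_pos (by norm_num)
  have hlq : 0 ≤ Real.log (q : ℝ) := Real.log_nonneg (by exact_mod_cast hq)
  have hM1 : 1 ≤ M := by omega
  have hlM : 0 ≤ Real.log (M : ℝ) := Real.log_nonneg (by exact_mod_cast hM1)
  have hw' : ((w - 1 : ℕ) : ℝ) = (w : ℝ) - 1 := by
    rw [Nat.cast_sub hw, Nat.cast_one]
  have hw1 : (0 : ℝ) ≤ (w : ℝ) - 1 := by rw [← hw']; positivity
  obtain ⟨B, hB⟩ : ∃ B, B = 2 * M ^ 5 * q ^ (w - 1) := ⟨_, rfl⟩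
  have hBpos : 0 < B := by
    rw [hB]
    positivity
  obtain ⟨L, hL⟩ : ∃ L : ℝ, L = 1 + 5 * Real.logb 2 M + (w - 1) * Real.logb 2 q := ⟨_, rfl⟩
  have hL1 : 1 ≤ L := by
    rw [hL, Real.logb, Real.logb]
    have h1 : 0 ≤ 5 * (Real.log M / Real.log 2) := by positivity
    have h2 : 0 ≤ ((w : ℝ) - 1) * (Real.log q / Real.log 2) := by positivity
    linarith
  have hLB : L * Real.log 2 = Real.log (B : ℝ) := by
    have hM' : (0 : ℝ) < M := by exact_mod_cast hM1
    have hq' : (0 : ℝ) < q := by exact_mod_cast hq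
    rw [hL, hB]
    push_cast
    rw [Real.log_mul (by positivity) (by positivity), Real.log_mul (by positivity) (by positivity),
      Real.log_pow, Real.log_pow, hw', Real.logb, Real.logb]
    field_simp
    push_cast
    ring
  rw [← hL] at hsmall
  -- every item is read often
  have h1 : ∀ i ∈ I, θ ≤ ∑ ω, μ ω * √((C ω).squares i : ℝ) := by
    intro i hi
    by_contra hlt
    push Not at hlt
    obtain ⟨A, r, Q, R, hA, hQA, hQ, hP, hf⟩ := h i hi
    obtain ⟨y, hy⟩ : ∃ y : {d // d ∈ A} → D i, y = fun v => v.1 := ⟨_, rfl⟩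
    have hM' : 4 * Fintype.card {d // d ∈ A} * (5 * s + 1) + 2 + s ≤ M := by
      rw [Fintype.card_coe]
      have : 4 * A.card * (5 * s + 1) ≤ 4 * K * (5 * s + 1) :=
        Nat.mul_le_mul_right _ (Nat.mul_le_mul_left _ hA)
      omega
    choose S hS1 hS2 using fun ω => Circuit.subfunctions i y s M B hq hM' hB (C ω) (hs ω)
    obtain ⟨bad, hbad⟩ : ∃ bad : Finset Ω,
        bad = univ.filter (fun ω => 40 * θ < √((C ω).squares i : ℝ)) := ⟨_, rfl⟩
    have hmark : ∑ ω ∈ bad, μ ω ≤ 1 / 40 := by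
      have h2 : ∑ ω ∈ bad, μ ω * (40 * θ) ≤ ∑ ω, μ ω * √((C ω).squares i : ℝ) := by
        calc ∑ ω ∈ bad, μ ω * (40 * θ) ≤ ∑ ω ∈ bad, μ ω * √((C ω).squares i : ℝ) := by
              apply sum_le_sum
              intro ω hω
              rw [hbad, mem_filter] at hω
              exact mul_le_mul_of_nonneg_left hω.2.le (hμ.nonneg ω)
          _ ≤ _ := sum_le_sum_of_subset_of_nonneg (subset_univ _) (fun ω _ _ =>
              mul_nonneg (hμ.nonneg ω) (Real.sqrt_nonneg _))
      rw [← sum_mul] at h2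
      have h3 : (∑ ω ∈ bad, μ ω) * (40 * θ) < θ := lt_of_le_of_lt h2 hlt
      nlinarith
    obtain ⟨G, hG⟩ : ∃ G : Ω → (∀ i, D i) → Bool, ∀ ω x, G ω x =
        if ω ∈ bad then false else (C ω).eval x := ⟨_, fun _ _ => rfl⟩
    have hGerr : ∀ x, P x → ∑ ω ∈ univ.filter (fun ω => G ω x ≠ f x), μ ω ≤ 1 / 3 + 1 / 40 := by
      intro x hx
      have h2 : univ.filter (fun ω => G ω x ≠ f x) ⊆
          univ.filter (fun ω => (C ω).eval x ≠ f x) ∪ bad := by
        intro ω hω
        rw [mem_filter] at hω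
        rw [mem_union, mem_filter]
        by_cases hb : ω ∈ bad
        · exact Or.inr hb
        · left
          have h3 := hω.2
          rw [hG, if_neg hb] at h3
          exact ⟨mem_univ _, h3⟩
      calc ∑ ω ∈ univ.filter (fun ω => G ω x ≠ f x), μ ω
          ≤ ∑ ω ∈ univ.filter (fun ω => (C ω).eval x ≠ f x) ∪ bad, μ ω :=
            sum_le_sum_of_subset_of_nonneg h2 (fun ω _ _ => hμ.nonneg ω)
        _ ≤ ∑ ω ∈ univ.filter (fun ω => (C ω).eval x ≠ f x), μ ω + ∑ ω ∈ bad, μ ω := by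
            rw [← sum_union_inter]
            have : 0 ≤ ∑ ω ∈ univ.filter (fun ω => (C ω).eval x ≠ f x) ∩ bad, μ ω :=
              sum_nonneg fun ω _ => hμ.nonneg ω
            linarith
        _ ≤ _ := add_le_add (hF x hx) hmark
    have h2 := gen_err' μ hμ G P f (1 / 3 + 1 / 40) hGerr i y
      (fun ω => if ω ∈ bad then {fun _ => false} else S ω) (fun ω z => by
        by_cases hb : ω ∈ bad
        · rw [if_pos hb, mem_singleton]
          funext v
          rw [hG, if_pos hb]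
        · rw [if_neg hb]
          have : (fun v => G ω (Function.update z i (y v))) =
              fun v => (C ω).eval (Function.update z i (y v)) := by
            funext v
            rw [hG, if_neg hb]
          rw [this]
          exact hS2 ω z) r
      (fun t z => ⟨Q t z, hQA t z⟩) (fun t z z' hz => Subtype.ext (hQ t z z' hz)) R
      (fun t z => by rw [hy]; exact hP t z) δ (by rw [hy]; exact hf)
    have h3 : ∀ ω, μ ω * Real.log ((if ω ∈ bad then {fun _ => false} else S ω : Finset _).card : ℝ) ≤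
        μ ω * ((1 + 4 * (40 * θ) ^ 2 * L) * Real.log 2) := by
      intro ω
      apply mul_le_mul_of_nonneg_left _ (hμ.nonneg ω)
      by_cases hb : ω ∈ bad
      · rw [if_pos hb, card_singleton, Nat.cast_one, Real.log_one]
        have : 0 ≤ L := by linarith
        positivity
      · rw [if_neg hb]
        have hr : √((C ω).squares i : ℝ) ≤ 40 * θ := by
          rw [hbad, mem_filter] at hb
          push Not at hb
          exact hb (mem_univ _)
        have hr2 : ((C ω).squares i : ℝ) ≤ (40 * θ) ^ 2 := by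
          have h4 := pow_le_pow_left₀ (Real.sqrt_nonneg _) hr 2
          rwa [Real.sq_sqrt (Nat.cast_nonneg _)] at h4
        have hne : 1 ≤ (S ω).card := card_pos.2 ⟨_, hS2 ω (R (fun _ => false))⟩
        have h4 : ((S ω).card : ℝ) ≤ 2 * (2 * (B : ℝ) ^ 3) ^ (C ω).squares i := by
          exact_mod_cast hS1 ω
        have h5 := Real.log_le_log (by exact_mod_cast hne) h4
        have hB' : (0 : ℝ) < B := by exact_mod_cast hBpos
        rw [Real.log_mul (by positivity) (by positivity), Real.log_pow,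
          Real.log_mul (by positivity) (by positivity), Real.log_pow, ← hLB] at h5
        push_cast at h5
        refine h5.trans ?_
        have h7 : Real.log 2 + 3 * (L * Real.log 2) ≤ 4 * (L * Real.log 2) := by
          have : 1 * Real.log 2 ≤ L * Real.log 2 := mul_le_mul_of_nonneg_right hL1 h6.le
          linarith
        have h8 : ((C ω).squares i : ℝ) * (Real.log 2 + 3 * (L * Real.log 2)) ≤
            (40 * θ) ^ 2 * (4 * (L * Real.log 2)) :=
          mul_le_mul hr2 h7 (by positivity) (by positivity)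
        linarith
    have h4 := h2.trans (sum_le_sum fun ω (_ : ω ∈ (univ : Finset Ω)) => h3 ω)
    rw [← sum_mul, hμ.sum_one, one_mul] at h4
    have h5 := le_of_mul_le_mul_right h4 h6
    have h7 : (415 / 1000 - (1 / 3 + 1 / 40) - δ) * (Fintype.card T : ℝ) =
        (17 / 300 - δ) * Fintype.card T := by ring
    rw [h7] at h5
    linarith
  have h2 := sum_le_sum h1
  rw [sum_const, nsmul_eq_mul, sum_comm] at h2
  refine h2.trans (le_of_eq ?_)
  unfold mean Circuit.load
  refine sum_congr rfl fun ω _ => ?_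
  rw [mul_sum]

/-- The lower bound in closed form. -/
theorem circuit_bound (μ : Ω → ℝ) (hμ : IsProb μ) (C : Ω → Circuit ι D w q)
    (P : (∀ i, D i) → Prop) (f : (∀ i, D i) → Bool)
    (hF : ApproximatesOn μ (fun ω => (C ω).eval) P f) (s : ℕ) (hs : ∀ ω, (C ω).SizeLE s)
    (hq : 1 ≤ q) (hw : 1 ≤ w) (K M : ℕ) (hM : 4 * K * (5 * s + 1) + 2 + s ≤ M) (δ : ℝ)
    (hδ : δ ≤ 1 / 32) (I : Finset ι) (h : ∀ i ∈ I, Asks T K δ P f i) (t : ℝ) (ht : 100 ≤ t)
    (hT : t ≤ Fintype.card T) (L : ℝ)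
    (hL : 1 + 5 * Real.logb 2 M + (w - 1) * Real.logb 2 q ≤ L) :
    (I.card : ℝ) ^ 2 * t ≤ 490000 * L * mean μ (fun ω => (C ω).load I) ^ 2 := by
  obtain ⟨L', hL'⟩ : ∃ L' : ℝ, L' = 1 + 5 * Real.logb 2 M + (w - 1) * Real.logb 2 q := ⟨_, rfl⟩
  have hL1 : 1 ≤ L := by
    have hlq : 0 ≤ Real.logb 2 (q : ℝ) := Real.logb_nonneg (by norm_num) (by exact_mod_cast hq)
    have hlM : 0 ≤ Real.logb 2 (M : ℝ) :=
      Real.logb_nonneg (by norm_num) (by exact_mod_cast (by omega : 1 ≤ M))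
    have hw1 : (0 : ℝ) ≤ (w : ℝ) - 1 := by
      have : (1 : ℝ) ≤ w := by exact_mod_cast hw
      linarith
    have h1 : 0 ≤ ((w : ℝ) - 1) * Real.logb 2 (q : ℝ) := mul_nonneg hw1 hlq
    linarith
  obtain ⟨u, hu⟩ : ∃ u : ℝ, u = √t := ⟨_, rfl⟩
  have hu2 : u ^ 2 = t := by rw [hu]; exact Real.sq_sqrt (by linarith)
  have hu0 : 0 < u := by rw [hu]; exact Real.sqrt_pos.2 (by linarith)
  obtain ⟨l, hl⟩ : ∃ l : ℝ, l = √L := ⟨_, rfl⟩
  have hl2 : l ^ 2 = L := by rw [hl]; exact Real.sq_sqrt (by linarith)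
  have hl0 : 0 < l := by rw [hl]; exact Real.sqrt_pos.2 (by linarith)
  have hθ0 : 0 < u / (700 * l) := by positivity
  have h1 := circuit_lower μ hμ C P f hF s hs hq hw K M hM δ I h (u / (700 * l)) hθ0 (by
    have h2 : 4 * (40 * (u / (700 * l))) ^ 2 * L = 16 / 1225 * t := by
      rw [← hl2, ← hu2]
      field_simp
      ring
    have h3 : 4 * (40 * (u / (700 * l))) ^ 2 *
        (1 + 5 * Real.logb 2 M + (w - 1) * Real.logb 2 q) ≤ 16 / 1225 * t := by
      rw [← h2]
      exact mul_le_mul_of_nonneg_left hL (by positivity)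
    have h4 : (17 / 300 - 1 / 32) * t ≤ (17 / 300 - δ) * t :=
      mul_le_mul_of_nonneg_right (by linarith) (by linarith)
    have h5 : (17 / 300 - δ) * t ≤ (17 / 300 - δ) * Fintype.card T :=
      mul_le_mul_of_nonneg_left hT (by linarith)
    linarith)
  have h2 := pow_le_pow_left₀ (by positivity) h1 2
  have h3 : ((I.card : ℝ) * (u / (700 * l))) ^ 2 = (I.card : ℝ) ^ 2 * t / (490000 * L) := by
    rw [mul_pow, div_pow, mul_pow, hu2, hl2]
    ring
  rw [h3, div_le_iff₀ (by linarith)] at h2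
  linarith

/-- Jensen and Cauchy-Schwarz. -/
theorem sq_mean_le (μ : Ω → ℝ) (hμ : IsProb μ) (I : Finset ι) (C : Ω → Circuit ι D w q) :
    mean μ (fun ω => (C ω).load I) ^ 2 ≤
      I.card * mean μ (fun ω => ∑ i ∈ I, ((C ω).squares i : ℝ)) := by
  have h1 : mean μ (fun ω => (C ω).load I) ^ 2 ≤ mean μ (fun ω => (C ω).load I ^ 2) := by
    unfold mean
    have h2 : (∑ ω, μ ω * (C ω).load I) ^ 2 ≤
        (∑ ω, μ ω) * ∑ ω, μ ω * (C ω).load I ^ 2 := by
      refine sum_sq_le_sum_mul_sum_of_sq_eq_mul univ (fun ω _ => hμ.nonneg ω)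
        (fun ω _ => mul_nonneg (hμ.nonneg ω) (sq_nonneg _)) (fun ω _ => by ring)
    rwa [hμ.sum_one, one_mul] at h2
  refine h1.trans ?_
  unfold mean
  rw [mul_sum]
  refine sum_le_sum fun ω _ => ?_
  rw [mul_left_comm]
  apply mul_le_mul_of_nonneg_left _ (hμ.nonneg ω)
  unfold Circuit.load
  refine (sq_sum_le_card_mul_sum_sq).trans (le_of_eq ?_)
  congr 1
  refine sum_congr rfl fun i _ => ?_
  rw [Real.sq_sqrt (Nat.cast_nonneg _)]

end Pool.Agent.Q225.SD
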