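import Pool.Agent.Q225.SD.Pairs
import Pool.Agent.Q225.SP.MinPlus

set_option autoImplicit false

/-! # Shortest paths: circuits of formulas with determinants -/

namespace Pool.Agent.Q225.SD

open Finset
open Pool.Agent.TH697.Form (IsProb)
open Pool.Agent.TH697.Row (ApproximatesOn)
open Pool.Agent.TH697.Form.MinPlus (Item InRange shortcut)
open Pool.Agent.Q225.SP (somes card_somes)

theorem minPlus_bound {n a c w : ℕ} (hn : 64 ≤ n) (ha : 1 ≤ a) (hw : 1 ≤ w)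
    {Ω : Type} [Fintype Ω] (μ : Ω → ℝ) (hμ : IsProb μ)
    (C : Ω → Circuit (Option (Fin n)) (Item n) w (n ^ c)) (hC : ∀ ω, (C ω).SizeLE (n ^ a))
    (hF : ApproximatesOn μ (fun ω => (C ω).eval) (InRange n (n + 1)) (shortcut n)) :
    (n : ℝ) ^ 4 ≤ 16000000 * (a + w * c) * mean μ (fun ω => (C ω).load (somes n)) ^ 2 := by
  have hn' : (64 : ℝ) ≤ n := by exact_mod_cast hn
  have ha' : (1 : ℝ) ≤ a := by exact_mod_cast ha
  have hw' : (1 : ℝ) ≤ w := by exact_mod_cast hw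
  have hc' : (0 : ℝ) ≤ c := Nat.cast_nonneg c
  obtain ⟨b, hb⟩ : ∃ b, b = Nat.log 2 n := ⟨_, rfl⟩
  have hb6 : 6 ≤ b := by
    have := Nat.log_mono_right (b := 2) hn
    rw [hb]
    rwa [show Nat.log 2 64 = 6 by decide +kernel] at this
  have hpow : 2 ^ b ≤ n := by
    rw [hb]
    exact Nat.pow_log_le_self 2 (by omega)
  have hpow2 : n < 2 ^ (b + 1) := by
    have := Nat.lt_pow_succ_log_self (b := 2) (by norm_num) n
    rw [hb]
    exact this
  obtain ⟨l, hl⟩ : ∃ l : ℝ, l = Real.logb 2 (n : ℝ) := ⟨_, rfl⟩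
  have hb' : (6 : ℝ) ≤ b := by exact_mod_cast hb6
  have hl1 : l ≤ 7 / 6 * b := by
    rw [hl]
    have h1 : (n : ℝ) ≤ (2 : ℝ) ^ (b + 1) := by exact_mod_cast hpow2.le
    have h2 := Real.logb_le_logb_of_le (by norm_num : (1 : ℝ) < 2) (by linarith) h1
    rw [Real.logb_pow, Real.logb_self_eq_one (by norm_num), mul_one] at h2
    push_cast at h2
    linarith
  have hl2 : 6 ≤ l := by
    rw [hl]
    have h1 : (2 : ℝ) ^ 6 ≤ n := by linarith
    have h2 := Real.logb_le_logb_of_le (by norm_num : (1 : ℝ) < 2) (by positivity) h1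
    rw [Real.logb_pow, Real.logb_self_eq_one (by norm_num), mul_one] at h2
    norm_num at h2
    exact h2
  have hM : 4 * n ^ 3 * (5 * n ^ a + 1) + 2 + n ^ a ≤ n ^ (a + 4) := by
    have h1 : 1 ≤ n ^ a := Nat.one_le_pow _ _ (by omega)
    have h2 : 4 * n ^ 3 * (5 * n ^ a + 1) ≤ 4 * n ^ 3 * (6 * n ^ a) :=
      Nat.mul_le_mul_left _ (by omega)
    have h3 : 4 * n ^ 3 * (6 * n ^ a) = 24 * (n ^ 3 * n ^ a) := by ring
    have h4 : n ^ a ≤ n ^ 3 * n ^ a := Nat.le_mul_of_pos_left _ (by positivity)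
    have h5 : n ^ (a + 4) = n * (n ^ 3 * n ^ a) := by ring
    have h6 : 64 * (n ^ 3 * n ^ a) ≤ n * (n ^ 3 * n ^ a) := Nat.mul_le_mul_right _ hn
    rw [h5]
    omega
  have hL : 1 + 5 * Real.logb 2 ((n ^ (a + 4) : ℕ) : ℝ) +
      ((w : ℝ) - 1) * Real.logb 2 ((n ^ c : ℕ) : ℝ) ≤ 31 * (a + w * c) * b := by
    push_cast
    rw [Real.logb_pow, Real.logb_pow, ← hl]
    push_cast
    have k0 : 0 ≤ (w : ℝ) * c := mul_nonneg (by linarith) hc'
    have k1 : 0 ≤ ((a : ℝ) - 1) * l := mul_nonneg (by linarith) (by linarith)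
    have k2 : 0 ≤ (c : ℝ) * l := mul_nonneg hc' (by linarith)
    have k3 : 0 ≤ ((w : ℝ) * c) * l := mul_nonneg k0 (by linarith)
    have k4 : 1 + 5 * (((a : ℝ) + 4) * l) + (w - 1) * (c * l) ≤ 26 * (a + w * c) * l := by
      linarith
    have k5 : 26 * ((a : ℝ) + w * c) * l ≤ 26 * (a + w * c) * (7 / 6 * b) :=
      mul_le_mul_of_nonneg_left hl1 (by positivity)
    have k6 : 0 ≤ ((a : ℝ) + w * c) * b := by positivity
    linarith
  have hT : (Fintype.card (Fin n × Fin n × Fin b) : ℝ) = (n : ℝ) ^ 2 * b := by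
    rw [Fintype.card_prod, Fintype.card_prod, Fintype.card_fin, Fintype.card_fin]
    push_cast
    ring
  have h := circuit_bound μ hμ C (InRange n (2 ^ b + 1)) (shortcut n)
    (Pool.Agent.Y638.RF.MinPlus.approx_mono μ _ _ _ _ (fun x hx =>
      Pool.Agent.TH457.Ary.MinPlus.inRange_mono (by omega) x hx) hF) (n ^ a) hC
    (Nat.one_le_pow _ _ (by omega)) hw (n ^ 3) (n ^ (a + 4)) hM 0 (by norm_num) (somes n)
    (T := Fin n × Fin n × Fin b) (by
      intro x hx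
      rw [somes, mem_map] at hx
      obtain ⟨i, -, rfl⟩ := hx
      exact Pool.Agent.Y638.RF.MinPlus.asks hpow i) ((n : ℝ) ^ 2 * b) (by nlinarith) hT.ge
    (31 * (a + w * c) * b) hL
  rw [card_somes] at h
  obtain ⟨X, hX⟩ : ∃ X, X = mean μ (fun ω => (C ω).load (somes n)) ^ 2 := ⟨_, rfl⟩
  have hX0 : 0 ≤ X := by rw [hX]; exact sq_nonneg _
  rw [← hX] at h ⊢
  have h4 : b * (n : ℝ) ^ 4 ≤ b * (16000000 * (a + w * c) * X) := by
    have k2 : 0 ≤ (b : ℝ) * ((a + w * c) * X) := by positivity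
    have k3 : (b : ℝ) * (n : ℝ) ^ 4 = n ^ 2 * (n ^ 2 * b) := by ring
    have k4 : 490000 * (31 * ((a : ℝ) + w * c) * b) * X = 15190000 * (b * ((a + w * c) * X)) := by
      ring
    have k5 : (b : ℝ) * (16000000 * (a + w * c) * X) = 16000000 * (b * ((a + w * c) * X)) := by ring
    rw [k3, k5]
    rw [k4] at h
    linarith
  exact le_of_mul_le_mul_left h4 (by linarith)

theorem minPlus_local {n a c w s d : ℕ} (hn : 64 ≤ n) (ha : 1 ≤ a) (hw : 1 ≤ w) (hd : 1 ≤ d)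
    (hs : s ≤ n ^ a) {Ω : Type} [Fintype Ω] (μ : Ω → ℝ) (hμ : IsProb μ)
    (C : Ω → Circuit (Option (Fin n)) (Item n) w (n ^ c)) (hC : ∀ ω, (C ω).SizeLE s)
    (hL : ∀ ω, (C ω).IsLocal (somes n) d)
    (hF : ApproximatesOn μ (fun ω => (C ω).eval) (InRange n (n + 1)) (shortcut n)) :
    (n : ℝ) ^ 3 ≤ 16000000 * (a + w * c) * (s * w * d * mean μ (fun ω => ((C ω).size : ℝ))) := by
  refine local_bound μ hμ (somes n) s d hd hw C hC hL (by positivity)
    (by rw [card_somes]; omega) ?_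
  rw [card_somes]
  have h := minPlus_bound hn ha hw μ hμ C (fun ω => (hC ω).mono hs) hF
  calc (n : ℝ) * (n : ℝ) ^ 3 = (n : ℝ) ^ 4 := by ring
    _ ≤ _ := h

end Pool.Agent.Q225.SD
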