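import Pool.Agent.Q225.SD.Local
import Pool.Agent.Q225.SP.OuMv

set_option autoImplicit false

/-! # Products `u_iᵀ M v_i`: circuits of formulas with determinants -/

namespace Pool.Agent.Q225.SD

open Finset
open Pool.Agent.Y638.RF (Asks)
open Pool.Agent.TH697.Form (IsProb)
open Pool.Agent.TH697.Row (ApproximatesOn)
open Pool.Agent.Q225.SP (somes card_somes log_small)

variable {Ω : Type} [Fintype Ω]

theorem mean_nonneg (μ : Ω → ℝ) (hμ : IsProb μ) (a : Ω → ℝ) (h : ∀ ω, 0 ≤ a ω) :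
    0 ≤ mean μ a := by
  unfold mean
  exact sum_nonneg fun ω _ => mul_nonneg (hμ.nonneg ω) (h ω)

theorem pairs_bound {D : (n : ℕ) → Option (Fin n) → Type} (f : ∀ n, (∀ i, D n i) → Bool)
    (hask : ∀ (n : ℕ) (i : Fin n), Asks (Fin n × Fin n) (n ^ 2) 0 (fun _ => True) (f n) (some i))
    {n a c w : ℕ} (hn : 256 ≤ n) (ha : 1 ≤ a) (hw : 1 ≤ w)
    (μ : Ω → ℝ) (hμ : IsProb μ)
    (C : Ω → Circuit (Option (Fin n)) (D n) w (2 ^ c)) (hC : ∀ ω, (C ω).SizeLE (n ^ a))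
    (hF : ApproximatesOn μ (fun ω => (C ω).eval) (fun _ => True) (f n)) :
    (n : ℝ) ^ 4 ≤ 11000000 * (a * Real.logb 2 n + w * c) *
      mean μ (fun ω => (C ω).load (somes n)) ^ 2 := by
  have hn' : (256 : ℝ) ≤ n := by exact_mod_cast hn
  have ha' : (1 : ℝ) ≤ a := by exact_mod_cast ha
  have hw' : (1 : ℝ) ≤ w := by exact_mod_cast hw
  obtain ⟨hl1, hl2⟩ := log_small hn'
  obtain ⟨l, hl⟩ : ∃ l : ℝ, l = Real.logb 2 (n : ℝ) := ⟨_, rfl⟩
  rw [← hl] at hl1 hl2 ⊢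
  have hM : 4 * n ^ 2 * (5 * n ^ a + 1) + 2 + n ^ a ≤ n ^ (a + 3) := by
    have h1 : 1 ≤ n ^ a := Nat.one_le_pow _ _ (by omega)
    have h2 : 4 * n ^ 2 * (5 * n ^ a + 1) ≤ 4 * n ^ 2 * (6 * n ^ a) :=
      Nat.mul_le_mul_left _ (by omega)
    have h3 : 4 * n ^ 2 * (6 * n ^ a) = 24 * (n ^ 2 * n ^ a) := by ring
    have h4 : n ^ a ≤ n ^ 2 * n ^ a := Nat.le_mul_of_pos_left _ (by positivity)
    have h5 : n ^ (a + 3) = n * (n ^ 2 * n ^ a) := by ring
    have h6 : 256 * (n ^ 2 * n ^ a) ≤ n * (n ^ 2 * n ^ a) := Nat.mul_le_mul_right _ hn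
    rw [h5]
    omega
  have hT : (Fintype.card (Fin n × Fin n) : ℝ) = (n : ℝ) ^ 2 := by
    rw [Fintype.card_prod, Fintype.card_fin]
    push_cast
    ring
  have hL : 1 + 5 * Real.logb 2 ((n ^ (a + 3) : ℕ) : ℝ) +
      ((w : ℝ) - 1) * Real.logb 2 ((2 ^ c : ℕ) : ℝ) ≤ 21 * (a * l + w * c) := by
    push_cast
    rw [Real.logb_pow, Real.logb_pow, ← hl, Real.logb_self_eq_one (by norm_num), mul_one]
    push_cast
    have hc0 : (0 : ℝ) ≤ c := Nat.cast_nonneg c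
    have h1 : 0 ≤ ((a : ℝ) - 1) * l := mul_nonneg (by linarith) (by linarith)
    have h2 : 0 ≤ (w : ℝ) * c := by positivity
    linarith
  have h := circuit_bound μ hμ C (fun _ => True) (f n) hF (n ^ a) hC
    (Nat.one_le_two_pow) hw (n ^ 2) (n ^ (a + 3)) hM 0 (by norm_num) (somes n)
    (T := Fin n × Fin n) (by
      intro b hb
      rw [somes, mem_map] at hb
      obtain ⟨i, -, rfl⟩ := hb
      exact hask n i) ((n : ℝ) ^ 2) (by nlinarith) hT.ge (21 * (a * l + w * c)) hL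
  rw [card_somes] at h
  calc (n : ℝ) ^ 4 = (n : ℝ) ^ 2 * (n : ℝ) ^ 2 := by ring
    _ ≤ 490000 * (21 * (a * l + w * c)) * mean μ (fun ω => (C ω).load (somes n)) ^ 2 := h
    _ = 10290000 * ((a * l + w * c) * mean μ (fun ω => (C ω).load (somes n)) ^ 2) := by ring
    _ ≤ 11000000 * ((a * l + w * c) * mean μ (fun ω => (C ω).load (somes n)) ^ 2) := by
        apply mul_le_mul_of_nonneg_right (by norm_num)
        apply mul_nonneg _ (sq_nonneg _)
        have h1 : 0 ≤ l := by linarith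
        positivity
    _ = _ := by ring

theorem pairs_local {D : (n : ℕ) → Option (Fin n) → Type} (f : ∀ n, (∀ i, D n i) → Bool)
    (hask : ∀ (n : ℕ) (i : Fin n), Asks (Fin n × Fin n) (n ^ 2) 0 (fun _ => True) (f n) (some i))
    {n a c w s d : ℕ} (hn : 256 ≤ n) (ha : 1 ≤ a) (hw : 1 ≤ w) (hd : 1 ≤ d) (hs : s ≤ n ^ a)
    (μ : Ω → ℝ) (hμ : IsProb μ)
    (C : Ω → Circuit (Option (Fin n)) (D n) w (2 ^ c)) (hC : ∀ ω, (C ω).SizeLE s)
    (hL : ∀ ω, (C ω).IsLocal (somes n) d)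
    (hF : ApproximatesOn μ (fun ω => (C ω).eval) (fun _ => True) (f n)) :
    (n : ℝ) ^ 3 ≤ 11000000 * (a * Real.logb 2 n + w * c) *
      (s * w * d * mean μ (fun ω => ((C ω).size : ℝ))) := by
  have h1 : 0 ≤ Real.logb 2 (n : ℝ) :=
    Real.logb_nonneg (by norm_num) (by exact_mod_cast (by omega : 1 ≤ n))
  refine local_bound μ hμ (somes n) s d hd hw C hC hL (by positivity)
    (by rw [card_somes]; omega) ?_
  rw [card_somes]
  have h := pairs_bound f hask hn ha hw μ hμ C (fun ω => (hC ω).mono hs) hF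
  calc (n : ℝ) * (n : ℝ) ^ 3 = (n : ℝ) ^ 4 := by ring
    _ ≤ _ := h

end Pool.Agent.Q225.SD
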