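import Pool.Agent.Q225.SD.Defs
import Pool.Agent.Q225.SP.Core
import Pool.Agent.Y649.DG.Basic

set_option autoImplicit false

/-! # Formulas with determinants: other inputs -/

namespace Pool.Agent.Q225.SD

open Finset
open Pool.Agent.Y649.DG (Fml)
open Pool.Agent.Y638.RF (pull)

variable {ι β : Type} {D : ι → Type} {E : β → Type} {w q : ℕ}

/-- The value depends only on the items which are seen. -/
theorem eval_congr {U : ι → Bool} (F : Fml ι D w q) (h : sees U F = 0) {x x' : ∀ i, D i}
    (hx : ∀ a, U a = false → x a = x' a) : F.eval x = F.eval x' := by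
  induction F with
  | const c => rfl
  | item j f =>
    simp only [Fml.eval]
    have h1 : U j = false := by
      by_contra h2
      rw [Bool.not_eq_false] at h2
      simp [sees, h2] at h
    rw [hx j h1]
  | word τ =>
    simp only [Fml.eval]
    have h1 : ∀ k, U (τ.item k) = false := by
      intro k
      by_contra h2
      rw [Bool.not_eq_false] at h2
      have h3 : ∃ k, U (τ.item k) = true := ⟨k, h2⟩
      simp only [sees, if_pos h3] at h
      exact one_ne_zero h
    congr 1
    funext k
    rw [hx _ (h1 k)]
  | pos F ih => simp only [Fml.eval, ih h]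
  | sym k H F ih =>
    simp only [sees] at h
    simp only [Fml.eval]
    have h1 : ∀ j, (F j).eval x = (F j).eval x' := fun j =>
      ih j ((sum_eq_zero_iff.1 h) j (mem_univ j))
    simp only [h1]
  | det m F ih =>
    simp only [sees] at h
    simp only [Fml.eval]
    have h1 : ∀ a b, (F a b).eval x = (F a b).eval x' := fun a b =>
      ih a b ((sum_eq_zero_iff.1 ((sum_eq_zero_iff.1 h) a (mem_univ a))) b (mem_univ b))
    simp only [h1]
  | reg K _ m c c' F ih =>
    simp only [sees] at h
    have h1 : ∀ a b, (F a b).eval x = (F a b).eval x' := fun a b =>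
      ih a b ((sum_eq_zero_iff.1 ((sum_eq_zero_iff.1 h) a (mem_univ a))) b (mem_univ b))
    have e : (fun a b => if 0 < (F a b).eval x then c' a b else c a b) =
        fun a b => if 0 < (F a b).eval x' then c' a b else c a b := by
      funext a b
      rw [h1 a b]
    rw [Fml.eval_reg, Fml.eval_reg, e]

/-- Every item `i` is computed from the item `(R i).1` of another input, by the function
`(R i).2`. -/
def relabel (R : ∀ i, Σ b : β, (E b → D i)) : Fml ι D w q → Fml β E w q
  | .const c => .const c
  | .item i f => .item (R i).1 (fun e => f ((R i).2 e))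
  | .word τ => .word ⟨fun k => (R (τ.item k)).1, fun k e => τ.view k ((R (τ.item k)).2 e), τ.out⟩
  | .pos F => .pos (relabel R F)
  | .sym k h F => .sym k h (fun j => relabel R (F j))
  | .det m F => .det m (fun a b => relabel R (F a b))
  | .reg K inst m c c' F => .reg K inst m c c' (fun a b => relabel R (F a b))

theorem eval_relabel (R : ∀ i, Σ b : β, (E b → D i)) (F : Fml ι D w q) (x : ∀ b, E b) :
    (relabel R F).eval x = F.eval (pull R x) := by
  induction F with
  | const c => rfl
  | item i f => rfl
  | word τ => rfl
  | pos F ih => simp only [relabel, Fml.eval, ih]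
  | sym k h F ih => simp only [relabel, Fml.eval, ih]
  | det m F ih => simp only [relabel, Fml.eval, ih]
  | reg K inst m c c' F ih =>
    have e : (fun a b => if 0 < (relabel R (F a b)).eval x then c' a b else c a b) =
        fun a b => if 0 < (F a b).eval (pull R x) then c' a b else c a b := by
      funext a b
      rw [ih a b]
    have e1 : relabel R (Fml.reg K inst m c c' F) =
      Fml.reg K inst m c c' (fun a b => relabel R (F a b)) := rfl
    rw [e1, Fml.eval_reg, Fml.eval_reg, e]

theorem accepts_relabel (R : ∀ i, Σ b : β, (E b → D i)) (F : Fml ι D w q) (x : ∀ b, E b) :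
    (relabel R F).accepts x = F.accepts (pull R x) := by
  unfold Fml.accepts
  rw [eval_relabel]

theorem size_relabel (R : ∀ i, Σ b : β, (E b → D i)) (F : Fml ι D w q) :
    (relabel R F).size = F.size := by
  induction F with
  | const c => rfl
  | item i f => rfl
  | word τ => rfl
  | pos F ih => simp only [relabel, Fml.size, ih]
  | sym k h F ih => simp only [relabel, Fml.size, ih]
  | det m F ih => simp only [relabel, Fml.size, ih]
  | reg K inst m c c' F ih => simp only [relabel, Fml.size, ih]

theorem reads_relabel [DecidableEq β] (R : ∀ i, Σ b : β, (E b → D i)) (b : β) {U : ι → Bool}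
    (hU : ∀ i, (R i).1 = b → U i = true) (F : Fml ι D w q) :
    (relabel R F).reads b ≤ sees U F := by
  induction F with
  | const c => exact le_rfl
  | item i f =>
    simp only [relabel, Fml.reads, sees]
    split_ifs with h1 h2
    · exact le_rfl
    · exact absurd (hU i h1) h2
    · exact Nat.zero_le _
    · exact le_rfl
  | word τ =>
    simp only [relabel, Fml.reads, sees]
    split_ifs with h1 h2
    · exact le_rfl
    · obtain ⟨k, hk⟩ := h1
      exact absurd ⟨k, hU _ hk⟩ h2
    · exact Nat.zero_le _
    · exact le_rfl
  | pos F ih => exact ih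
  | sym k H F ih => exact sum_le_sum fun j _ => ih j
  | det m F ih => exact sum_le_sum fun a _ => sum_le_sum fun b _ => ih a b
  | reg K _ m c c' F ih => exact sum_le_sum fun a _ => sum_le_sum fun b _ => ih a b

theorem sees_le_size (U : ι → Bool) (F : Fml ι D w q) : sees U F ≤ F.size := by
  induction F with
  | const c => exact le_rfl
  | item j f =>
    simp only [sees, Fml.size]
    split_ifs <;> omega
  | word τ =>
    simp only [sees, Fml.size]
    split_ifs <;> omega
  | pos F ih => exact ih
  | sym k H F ih =>
    simp only [sees, Fml.size]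
    exact (sum_le_sum fun j _ => ih j).trans (Nat.le_add_left _ _)
  | det m F ih => exact sum_le_sum fun a _ => sum_le_sum fun b _ => ih a b
  | reg K _ m c c' F ih => exact sum_le_sum fun a _ => sum_le_sum fun b _ => ih a b

/-- If everything belongs to at most `d` of the sets `U i`, `i ∈ I`, then every leaf sees at most
`w d` of them. -/
theorem sum_sees_le {κ : Type} (I : Finset κ) (U : κ → ι → Bool) (d : ℕ) (hw : 1 ≤ w)
    (hU : ∀ a, (I.filter (fun i => U i a = true)).card ≤ d) (F : Fml ι D w q) :
    ∑ i ∈ I, sees (U i) F ≤ w * d * F.size := by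
  induction F with
  | const c => simp [sees]
  | item j f =>
    simp only [sees, Fml.size, mul_one]
    rw [← card_filter]
    exact (hU j).trans (Nat.le_mul_of_pos_left _ hw)
  | word τ =>
    simp only [sees, Fml.size, mul_one]
    rw [← card_filter]
    classical
    have h : I.filter (fun i => ∃ k, U i (τ.item k) = true) ⊆
        (univ : Finset (Fin w)).biUnion (fun k => I.filter (fun i => U i (τ.item k) = true)) := by
      intro i hi
      rw [mem_filter] at hi
      obtain ⟨k, hk⟩ := hi.2
      rw [mem_biUnion]
      exact ⟨k, mem_univ _, mem_filter.2 ⟨hi.1, hk⟩⟩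
    refine (card_le_card h).trans (card_biUnion_le.trans ?_)
    calc ∑ k : Fin w, (I.filter (fun i => U i (τ.item k) = true)).card
        ≤ ∑ _k : Fin w, d := sum_le_sum fun k _ => hU _
      _ = w * d := by simp
  | pos F ih => exact ih
  | sym k H F ih =>
    simp only [sees, Fml.size]
    rw [sum_comm, mul_add]
    calc ∑ j, ∑ i ∈ I, sees (U i) (F j) ≤ ∑ j, w * d * (F j).size := sum_le_sum fun j _ => ih j
      _ = w * d * ∑ j, (F j).size := by rw [mul_sum]
      _ ≤ _ := by omega
  | det m F ih =>
    simp only [sees, Fml.size]
    rw [sum_comm, mul_sum]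
    refine sum_le_sum fun a _ => ?_
    rw [sum_comm, mul_sum]
    exact sum_le_sum fun b _ => ih a b
  | reg K _ m c c' F ih =>
    simp only [sees, Fml.size]
    rw [sum_comm, mul_sum]
    refine sum_le_sum fun a _ => ?_
    rw [sum_comm, mul_sum]
    exact sum_le_sum fun b _ => ih a b

end Pool.Agent.Q225.SD
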