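import Pool.Agent.Q225.SD.Pairs
import Pool.Agent.Q225.SP.Tri

set_option autoImplicit false

/-! # Triangles: circuits of formulas with determinants -/

namespace Pool.Agent.Q225.SD

open Finset
open Pool.Agent.TH697.Form (IsProb)
open Pool.Agent.TH697.Row (ApproximatesOn)
open Pool.Agent.TH457.Ary.Tri (Edge Simple triangle)
open Pool.Agent.TH457.Ary.Sat (exists_k)

theorem tri_bound {m a c w : ℕ} (hm : 1000 ≤ m) (ha : 1 ≤ a) (hw : 1 ≤ w)
    {Ω : Type} [Fintype Ω] (μ : Ω → ℝ) (hμ : IsProb μ)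
    (C : Ω → Circuit (Fin m) (fun _ => Edge (2 * m)) w (m ^ c)) (hC : ∀ ω, (C ω).SizeLE (m ^ a))
    (hF : ApproximatesOn μ (fun ω => (C ω).eval) Simple triangle) :
    (m : ℝ) ^ 3 ≤ 52000000 * (a + w * c) * mean μ (fun ω => (C ω).load univ) ^ 2 := by
  have hm' : (1000 : ℝ) ≤ m := by exact_mod_cast hm
  have ha' : (1 : ℝ) ≤ a := by exact_mod_cast ha
  have hw' : (1 : ℝ) ≤ w := by exact_mod_cast hw
  have hc' : (0 : ℝ) ≤ c := Nat.cast_nonneg c
  obtain ⟨k, hk, hk1, hk2⟩ := exists_k (m := m) (by omega)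
  have hk' : (4 : ℝ) ≤ k := by exact_mod_cast hk
  have hl1 := Pool.Agent.Y638.RF.Tri.logb_m hk (by omega) hk2
  have hT := Pool.Agent.TH457.Ary.Tri.card_T (m := m) (k := k) (by omega) hk1
  obtain ⟨l, hl⟩ : ∃ l : ℝ, l = Real.logb 2 (m : ℝ) := ⟨_, rfl⟩
  rw [← hl] at hl1
  have hl2 : 9 ≤ l := by
    rw [hl]
    have h1 : (2 : ℝ) ^ 9 ≤ m := by linarith
    have h2 := Real.logb_le_logb_of_le (by norm_num : (1 : ℝ) < 2) (by positivity) h1
    rw [Real.logb_pow, Real.logb_self_eq_one (by norm_num), mul_one] at h2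
    norm_num at h2
    exact h2
  have hM : 4 * (4 * m ^ 2) * (5 * m ^ a + 1) + 2 + m ^ a ≤ m ^ (a + 3) := by
    have h1 : 1 ≤ m ^ a := Nat.one_le_pow _ _ (by omega)
    have h2 : 4 * (4 * m ^ 2) * (5 * m ^ a + 1) ≤ 4 * (4 * m ^ 2) * (6 * m ^ a) :=
      Nat.mul_le_mul_left _ (by omega)
    have h3 : 4 * (4 * m ^ 2) * (6 * m ^ a) = 96 * (m ^ 2 * m ^ a) := by ring
    have h4 : m ^ a ≤ m ^ 2 * m ^ a := Nat.le_mul_of_pos_left _ (by positivity)
    have h5 : m ^ (a + 3) = m * (m ^ 2 * m ^ a) := by ring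
    have h6 : 1000 * (m ^ 2 * m ^ a) ≤ m * (m ^ 2 * m ^ a) := Nat.mul_le_mul_right _ hm
    rw [h5]
    omega
  have hL : 1 + 5 * Real.logb 2 ((m ^ (a + 3) : ℕ) : ℝ) +
      ((w : ℝ) - 1) * Real.logb 2 ((m ^ c : ℕ) : ℝ) ≤ 105 / 2 * (a + w * c) * k := by
    push_cast
    rw [Real.logb_pow, Real.logb_pow, ← hl]
    push_cast
    have k0 : 0 ≤ (w : ℝ) * c := mul_nonneg (by linarith) hc'
    have k1 : 0 ≤ ((a : ℝ) - 1) * l := mul_nonneg (by linarith) (by linarith)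
    have k2 : 0 ≤ (c : ℝ) * l := mul_nonneg hc' (by linarith)
    have k3 : 0 ≤ ((w : ℝ) * c) * l := mul_nonneg k0 (by linarith)
    have k4 : 1 + 5 * (((a : ℝ) + 3) * l) + (w - 1) * (c * l) ≤ 21 * (a + w * c) * l := by
      linarith
    have k5 : 21 * ((a : ℝ) + w * c) * l ≤ 21 * (a + w * c) * (5 / 2 * k) :=
      mul_le_mul_of_nonneg_left hl1 (by positivity)
    linarith
  have h := circuit_bound (D := fun _ : Fin m => Edge (2 * m)) μ hμ C Simple triangle hF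
    (m ^ a) hC (Nat.one_le_pow _ _ (by omega)) hw (4 * m ^ 2) (m ^ (a + 3)) hM 0 (by norm_num) univ
    (T := Fin (Pool.Agent.TH457.Ary.Tri.M m k) × Fin k)
    (fun p _ => Pool.Agent.Y638.RF.Tri.asks (by omega) hk1 p)
    ((m : ℝ) * k / 2) (by nlinarith) hT (105 / 2 * (a + w * c) * k) hL
  rw [card_univ (α := Fin m), Fintype.card_fin] at h
  obtain ⟨X, hX⟩ : ∃ X, X = mean μ (fun ω => (C ω).load univ) ^ 2 := ⟨_, rfl⟩
  have hX0 : 0 ≤ X := by rw [hX]; exact sq_nonneg _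
  rw [← hX] at h ⊢
  have h4 : k * (m : ℝ) ^ 3 ≤ k * (52000000 * (a + w * c) * X) := by
    have k2 : 0 ≤ (k : ℝ) * ((a + w * c) * X) := by positivity
    have k3 : (m : ℝ) ^ 2 * (m * k / 2) = k * m ^ 3 / 2 := by ring
    have k4 : 490000 * (105 / 2 * ((a : ℝ) + w * c) * k) * X =
        25725000 * (k * ((a + w * c) * X)) := by ring
    have k5 : (k : ℝ) * (52000000 * (a + w * c) * X) = 52000000 * (k * ((a + w * c) * X)) := by
      ring
    rw [k5]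
    rw [k3, k4] at h
    linarith
  exact le_of_mul_le_mul_left h4 (by linarith)

theorem tri_local {m a c w s d : ℕ} (hm : 1000 ≤ m) (ha : 1 ≤ a) (hw : 1 ≤ w) (hd : 1 ≤ d)
    (hs : s ≤ m ^ a) {Ω : Type} [Fintype Ω] (μ : Ω → ℝ) (hμ : IsProb μ)
    (C : Ω → Circuit (Fin m) (fun _ => Edge (2 * m)) w (m ^ c)) (hC : ∀ ω, (C ω).SizeLE s)
    (hL : ∀ ω, (C ω).IsLocal univ d)
    (hF : ApproximatesOn μ (fun ω => (C ω).eval) Simple triangle) :
    (m : ℝ) ^ 2 ≤ 52000000 * (a + w * c) * (s * w * d * mean μ (fun ω => ((C ω).size : ℝ))) := by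
  refine local_bound μ hμ univ s d hd hw C hC hL (by positivity)
    (by rw [card_univ, Fintype.card_fin]; omega) ?_
  rw [card_univ, Fintype.card_fin]
  have h := tri_bound hm ha hw μ hμ C (fun ω => (hC ω).mono hs) hF
  calc (m : ℝ) * (m : ℝ) ^ 2 = (m : ℝ) ^ 3 := by ring
    _ ≤ _ := h

end Pool.Agent.Q225.SD
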