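import Pool.Agent.Q225.SD.Pairs
import Pool.Agent.Y638.RF.NetZT

set_option autoImplicit false

/-! # Triangles of weight zero: circuits of formulas with determinants -/

namespace Pool.Agent.Q225.SD

open Finset
open Pool.Agent.TH697.Form (IsProb)
open Pool.Agent.TH697.Row (ApproximatesOn)
open Pool.Agent.Y638.RF.ZT (InRange zeroTri first card_first asks_first)

theorem zt_bound {n a c w : ℕ} (hn : 100 ≤ n) (ha : 1 ≤ a) (hw : 1 ≤ w)
    {Ω : Type} [Fintype Ω] (μ : Ω → ℝ) (hμ : IsProb μ)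
    (C : Ω → Circuit (Fin 3 × Fin n × Fin n) (fun _ => ℤ) w (n ^ c))
    (hC : ∀ ω, (C ω).SizeLE (n ^ a))
    (hF : ApproximatesOn μ (fun ω => (C ω).eval) InRange zeroTri) :
    (n : ℝ) ^ 5 ≤ 8000000 * ((a + w * c) * Real.logb 2 n) *
      mean μ (fun ω => (C ω).load (first n)) ^ 2 := by
  have hn' : (100 : ℝ) ≤ n := by exact_mod_cast hn
  have ha' : (1 : ℝ) ≤ a := by exact_mod_cast ha
  have hw' : (1 : ℝ) ≤ w := by exact_mod_cast hw
  have hc' : (0 : ℝ) ≤ c := Nat.cast_nonneg c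
  have hl2 : (6 : ℝ) ≤ Real.logb 2 n := by
    have h11 : ((2 : ℝ)) ^ 6 ≤ n := by linarith
    have h12 := Real.logb_le_logb_of_le (by norm_num : (1 : ℝ) < 2) (by positivity) h11
    rw [Real.logb_pow, Real.logb_self_eq_one (by norm_num)] at h12
    norm_num at h12
    exact h12
  obtain ⟨l, hl⟩ : ∃ l : ℝ, l = Real.logb 2 (n : ℝ) := ⟨_, rfl⟩
  rw [← hl] at hl2 ⊢
  have hM : 4 * n * (5 * n ^ a + 1) + 2 + n ^ a ≤ n ^ (a + 2) := by
    have h1 : 1 ≤ n ^ a := Nat.one_le_pow _ _ (by omega)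
    have h2 : 4 * n * (5 * n ^ a + 1) ≤ 4 * n * (6 * n ^ a) :=
      Nat.mul_le_mul_left _ (by omega)
    have h3 : 4 * n * (6 * n ^ a) = 24 * (n * n ^ a) := by ring
    have h4 : n ^ a ≤ n * n ^ a := Nat.le_mul_of_pos_left _ (by omega)
    have h5 : n ^ (a + 2) = n * (n * n ^ a) := by ring
    have h6 : 100 * (n * n ^ a) ≤ n * (n * n ^ a) := Nat.mul_le_mul_right _ hn
    rw [h5]
    omega
  have hL : 1 + 5 * Real.logb 2 ((n ^ (a + 2) : ℕ) : ℝ) +
      ((w : ℝ) - 1) * Real.logb 2 ((n ^ c : ℕ) : ℝ) ≤ 16 * ((a + w * c) * l) := by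
    push_cast
    rw [Real.logb_pow, Real.logb_pow, ← hl]
    push_cast
    have k0 : 0 ≤ (w : ℝ) * c := mul_nonneg (by linarith) hc'
    have k1 : 0 ≤ ((a : ℝ) - 1) * l := mul_nonneg (by linarith) (by linarith)
    have k2 : 0 ≤ (c : ℝ) * l := mul_nonneg hc' (by linarith)
    have k3 : 0 ≤ ((w : ℝ) * c) * l := mul_nonneg k0 (by linarith)
    linarith
  have h := circuit_bound (D := fun _ : Fin 3 × Fin n × Fin n => ℤ) μ hμ C InRange zeroTri hF
    (n ^ a) hC (Nat.one_le_pow _ _ (by omega)) hw n (n ^ (a + 2)) hM 0 (by norm_num) (first n)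
    (T := Fin n) asks_first (n : ℝ) hn' (by rw [Fintype.card_fin]) (16 * ((a + w * c) * l)) hL
  rw [card_first] at h
  push_cast at h
  obtain ⟨X, hX⟩ : ∃ X, X = mean μ (fun ω => (C ω).load (first n)) ^ 2 := ⟨_, rfl⟩
  have hX0 : 0 ≤ X := by rw [hX]; exact sq_nonneg _
  rw [← hX] at h ⊢
  have k3 : ((n : ℝ) ^ 2) ^ 2 * n = n ^ 5 := by ring
  have k4 : 490000 * (16 * (((a : ℝ) + w * c) * l)) * X = 7840000 * (((a + w * c) * l) * X) := by
    ring
  have k2 : 0 ≤ (((a : ℝ) + w * c) * l) * X := by positivity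
  rw [k3, k4] at h
  linarith

theorem zt_local {n a c w s d : ℕ} (hn : 100 ≤ n) (ha : 1 ≤ a) (hw : 1 ≤ w) (hd : 1 ≤ d)
    (hs : s ≤ n ^ a) {Ω : Type} [Fintype Ω] (μ : Ω → ℝ) (hμ : IsProb μ)
    (C : Ω → Circuit (Fin 3 × Fin n × Fin n) (fun _ => ℤ) w (n ^ c))
    (hC : ∀ ω, (C ω).SizeLE s) (hL : ∀ ω, (C ω).IsLocal (first n) d)
    (hF : ApproximatesOn μ (fun ω => (C ω).eval) InRange zeroTri) :
    (n : ℝ) ^ 3 ≤ 8000000 * ((a + w * c) * Real.logb 2 n) *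
      (s * w * d * mean μ (fun ω => ((C ω).size : ℝ))) := by
  have h1 : 0 ≤ Real.logb 2 (n : ℝ) :=
    Real.logb_nonneg (by norm_num) (by exact_mod_cast (by omega : 1 ≤ n))
  have hn2 : 0 < n ^ 2 := by positivity
  refine local_bound μ hμ (first n) s d hd hw C hC hL (by positivity)
    (by rw [card_first]; exact hn2) ?_
  rw [card_first]
  have h := zt_bound hn ha hw μ hμ C (fun ω => (hC ω).mono hs) hF
  calc ((n ^ 2 : ℕ) : ℝ) * (n : ℝ) ^ 3 = (n : ℝ) ^ 5 := by push_cast; ring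
    _ ≤ _ := h

end Pool.Agent.Q225.SD
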