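import Pool.Agent.Q225.SD.Pairs
import Pool.Agent.Q225.SP.ZeroSum

set_option autoImplicit false

/-! # 3SUM: circuits of formulas with determinants -/

namespace Pool.Agent.Q225.SD

open Finset
open Pool.Agent.TH697.Form (IsProb)
open Pool.Agent.TH697.Row (ApproximatesOn)
open Pool.Agent.TH697.Form.ThreeSum (Item Valid)
open Pool.Agent.TH457.Ary.ZeroSum (zeroSum)
open Pool.Agent.Q225.SP (somes card_somes)

theorem zeroSum_bound {n a c w : ℕ} (hn : 1000 ≤ n) (ha : 1 ≤ a) (hw : 1 ≤ w)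
    {Ω : Type} [Fintype Ω] (μ : Ω → ℝ) (hμ : IsProb μ)
    (C : Ω → Circuit (Option (Fin n)) (Item n n) w ((2 * n) ^ c))
    (hC : ∀ ω, (C ω).SizeLE (n ^ a))
    (hF : ApproximatesOn μ (fun ω => (C ω).eval) (Valid n n) (zeroSum n)) :
    (n : ℝ) ^ 3 ≤ 80000000 * (a + w * c) * mean μ (fun ω => (C ω).load (somes n)) ^ 2 := by
  have hn' : (1000 : ℝ) ≤ n := by exact_mod_cast hn
  have ha' : (1 : ℝ) ≤ a := by exact_mod_cast ha
  have hw' : (1 : ℝ) ≤ w := by exact_mod_cast hw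
  have hc' : (0 : ℝ) ≤ c := Nat.cast_nonneg c
  obtain ⟨b, hb, hg8, hb2⟩ := Pool.Agent.TH457.Ary.ThreeSum.params (n := n) (by omega)
  have hlogn := Pool.Agent.TH457.Ary.ThreeSum.logb_n (n := n) (by omega)
  have hlogq := Pool.Agent.TH457.Ary.ThreeSum.logb_q (c := c) (n := n) (by omega) hg8
  have hT := Pool.Agent.TH457.Ary.ThreeSum.card_T (n := n) (by omega) hb2
  have hg8' : (8 : ℝ) ≤ Nat.log 2 n := by exact_mod_cast hg8
  obtain ⟨g, hg⟩ : ∃ g : ℝ, g = Nat.log 2 n := ⟨_, rfl⟩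
  rw [← hg] at hg8' hlogn hlogq hT
  have hM : 4 * n ^ 2 * (5 * n ^ a + 1) + 2 + n ^ a ≤ n ^ (a + 3) := by
    have h1 : 1 ≤ n ^ a := Nat.one_le_pow _ _ (by omega)
    have h2 : 4 * n ^ 2 * (5 * n ^ a + 1) ≤ 4 * n ^ 2 * (6 * n ^ a) :=
      Nat.mul_le_mul_left _ (by omega)
    have h3 : 4 * n ^ 2 * (6 * n ^ a) = 24 * (n ^ 2 * n ^ a) := by ring
    have h4 : n ^ a ≤ n ^ 2 * n ^ a := Nat.le_mul_of_pos_left _ (by positivity)
    have h5 : n ^ (a + 3) = n * (n ^ 2 * n ^ a) := by ring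
    have h6 : 256 * (n ^ 2 * n ^ a) ≤ n * (n ^ 2 * n ^ a) := Nat.mul_le_mul_right _ (by omega)
    rw [h5]
    omega
  have hl : Real.logb 2 (n : ℝ) ≤ 9 / 8 * g := by linarith
  have hL : 1 + 5 * Real.logb 2 ((n ^ (a + 3) : ℕ) : ℝ) +
      ((w : ℝ) - 1) * Real.logb 2 (((2 * n) ^ c : ℕ) : ℝ) ≤ 23 * (a + w * c) * g := by
    have hlogM : Real.logb 2 ((n ^ (a + 3) : ℕ) : ℝ) ≤ ((a : ℝ) + 3) * (9 / 8 * g) := by
      push_cast
      rw [Real.logb_pow]
      push_cast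
      exact mul_le_mul_of_nonneg_left hl (by linarith)
    have h0 := mul_le_mul_of_nonneg_left hlogq (by linarith : (0 : ℝ) ≤ (w : ℝ) - 1)
    have k1 : 0 ≤ ((a : ℝ) - 1) * g := mul_nonneg (by linarith) (by linarith)
    have k2 : 0 ≤ (c : ℝ) * g := mul_nonneg hc' (by linarith)
    have k3 : 0 ≤ (w : ℝ) * (c * g) := mul_nonneg (by linarith) k2
    linarith
  have h := circuit_bound μ hμ C (Valid n n) (zeroSum n) hF (n ^ a) hC
    (Nat.one_le_pow _ _ (by omega)) hw (n ^ 2) (n ^ (a + 3)) hM 0 (by norm_num) (somes n)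
    (T := Fin (n / 2) × Fin b) (by
      intro x hx
      rw [somes, mem_map] at hx
      obtain ⟨i, -, rfl⟩ := hx
      exact Pool.Agent.Y638.RF.ZeroSum.asks hb (by omega) i) ((n : ℝ) * g / 7) (by nlinarith) hT
    (23 * (a + w * c) * g) hL
  rw [card_somes] at h
  obtain ⟨X, hX⟩ : ∃ X, X = mean μ (fun ω => (C ω).load (somes n)) ^ 2 := ⟨_, rfl⟩
  have hX0 : 0 ≤ X := by rw [hX]; exact sq_nonneg _
  rw [← hX] at h ⊢
  have h4 : g * (n : ℝ) ^ 3 ≤ g * (80000000 * (a + w * c) * X) := by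
    have k2 : 0 ≤ g * ((a + w * c) * X) := by
      apply mul_nonneg (by linarith)
      positivity
    have k3 : (n : ℝ) ^ 2 * (n * g / 7) = g * n ^ 3 / 7 := by ring
    have k4 : 490000 * (23 * ((a : ℝ) + w * c) * g) * X = 11270000 * (g * ((a + w * c) * X)) := by
      ring
    have k5 : g * (80000000 * (a + w * c) * X) = 80000000 * (g * ((a + w * c) * X)) := by ring
    rw [k5]
    rw [k3, k4] at h
    linarith
  exact le_of_mul_le_mul_left h4 (by linarith)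

theorem zeroSum_local {n a c w s d : ℕ} (hn : 1000 ≤ n) (ha : 1 ≤ a) (hw : 1 ≤ w) (hd : 1 ≤ d)
    (hs : s ≤ n ^ a) {Ω : Type} [Fintype Ω] (μ : Ω → ℝ) (hμ : IsProb μ)
    (C : Ω → Circuit (Option (Fin n)) (Item n n) w ((2 * n) ^ c)) (hC : ∀ ω, (C ω).SizeLE s)
    (hL : ∀ ω, (C ω).IsLocal (somes n) d)
    (hF : ApproximatesOn μ (fun ω => (C ω).eval) (Valid n n) (zeroSum n)) :
    (n : ℝ) ^ 2 ≤ 80000000 * (a + w * c) * (s * w * d * mean μ (fun ω => ((C ω).size : ℝ))) := by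
  refine local_bound μ hμ (somes n) s d hd hw C hC hL (by positivity)
    (by rw [card_somes]; omega) ?_
  rw [card_somes]
  have h := zeroSum_bound hn ha hw μ hμ C (fun ω => (hC ω).mono hs) hF
  calc (n : ℝ) * (n : ℝ) ^ 2 = (n : ℝ) ^ 3 := by ring
    _ ≤ _ := h

end Pool.Agent.Q225.SD
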